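import Pool.Agent.KTW.AllY
import Pool.Agent.KTW.TypesW

/-!
Grothendieck classes on products of K3 surfaces (and other varieties of K3 type), Kuga-Satake
varieties and abelian varieties over the algebraic numbers, in all degrees.

`T_i`, `i` in a finite set `I`, are Hodge structures of K3 type over `ℚ̄`, with Kuga-Satake varieties `A_i`;
`K_i` is the endomorphism field of `T_i = K_i^{m_i}`, and `S_i` the Kuga-Satake structure: the Clifford
operators on `H_1(A_i)`. `T_i ⊗ ℂ` has the rational structure `T_i` (`IsRatT`), the de Rham structure
(`IsDRT`) and the Hodge filtration (`IsFilT`) given by the action on `H_1(A_i)`. For a K3 surface (a cubic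
fourfold, ...) over `ℚ̄` these are the structures of the transcendental part of the second (fourth)
cohomology (Deligne).

Let `X = X_1 × ... × X_n`, where the transcendental part of the cohomology of each `X_s` is one of the
`T_i`, and `Y = X × ∏ A_i^{k_i} × ∏ C_j^{k_j}` with abelian varieties `C_j`. `HV r K m = ℂ^r ⊕ (⊕_i T_i ⊗ ℂ)`
contains the cohomology of all `X_s`, the coordinates of `ℂ^r` being those of algebraic classes. By
Künneth and Poincaré duality a class in `⊕_k H^(2k)(Y, ℂ)(k)` is a multilinear form `F` on `n` copies of
`HV r K m` with values in the alternating forms on `H_1(∏ A_i^{k_i} × ∏ C_j^{k_j}, ℂ)` (`ClassY`).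

The theorem. All Grothendieck classes on `Y` are Hodge classes, if the `T_i` and `C_j` satisfy the
following conditions, for some product `D = ∏ D_l` of simple, pairwise not isogenous abelian varieties,
each of which is a surface with `End = ℤ`, or has real multiplication, or complex multiplication by a
field which is abelian over `ℚ` (more generally `IsElementary D`).

* Every `C_j` is a quotient of a product of powers of the `A_i` and the `D_l`.
* For every `i` one of the following holds: `K_i` is totally real, `m_i ≥ 3` and `m_i ≠ 5`; or `K_i = ℚ`,
  `m_i = 5`, and `A_i` has a factor of dimension two with `End = ℤ`; or `K_i` is a CM field which is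
  abelian over `ℚ`, and `m_i = 1` or `m_i` is even; or `K_i` is a CM field, `m_i` is even, and the CM part
  of `A_i` is a quotient of a power of `D`; or `A_i` is a quotient of a power of `D`. Or, instead of this:
  there is only one `T_i`, `D = 0`, and `K_i` is a CM field, `m_i = 1` or even, and `K_i` is of degree `≤ 6`,
  or abelian over `ℚ`, or `OddSparse` (or `T_i` is one of the real ones above).

In particular this holds for all products of K3 surfaces over `ℚ̄` such that every `K_i` is totally real,
with `m_i ≠ 5`, or a CM field which is abelian over `ℚ`, with `m_i = 1` or `m_i` even. There is no condition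
on the relations between different `T_i`, or between the `T_i` and the `C_j`. Nothing is assumed.
-/

namespace Pool.Agent.Results.MP_bf54cf_ag.K3Products

open Pool.Agent.GPC

theorem result {I J L : Type} [Fintype I] [Fintype J] [Fintype L] (A : I → AbVar)
    (hA : ∀ i, (A i).g ≠ 0) (K : I → Type) [∀ i, Field (K i)] [∀ i, NumberField (K i)]
    (c : ∀ i, K i →+* K i) (m : I → ℕ) (S : ∀ i, (A i).KugaSatakeMul (K i) (c i) (m i))
    (D : L → AbVar) (hD : IsElementary D)
    (hS : (∀ i, (A i).IsQuotientOf D ∨ (S i).IsStandard D) ∨
      IsEmpty L ∧ Subsingleton I ∧ ∀ i, (S i).IsAdmissible)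
    (C : J → AbVar) (hC : ∀ j, (C j).IsQuotientOf (Sum.elim A D)) (r n : ℕ) (k : I ⊕ J → ℕ)
    (p : ℕ) (F : ClassY K m (Sum.elim A C) r n k p) (hF : F.IsGr S) : F.IsHodge S :=
  Pool.Agent.KTW.mainY A hA K c m S D hD hS C hC r n k p F hF

end Pool.Agent.Results.MP_bf54cf_ag.K3Products
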