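import Pool.Agent.Helper31.KTS.Small

/-!
Grothendieck classes on abelian varieties over `ℚ̄`, for example on all powers of all abelian
surfaces: abelian varieties the simple factors of which are of dimension at most two, or have real
multiplication of relative dimension one (`GL_2`-type over the algebraic closure) or two, or complex
multiplication.

Let `X` be an abelian variety over `ℚ̄` such that every simple factor `B` of `X` is of one of the
following four kinds:

* `B.g ≤ 2`: `B` is an elliptic curve or a surface. Such factors may occur with any multiplicity;
* `IsRMType B K`: there is a totally real field `K`, `[K : ℚ] = dim B`, of Rosati-symmetric elements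
  of `End(B) ⊗ ℚ`, which is equal to its centraliser in `End(B) ⊗ ℚ`;
* `B.HasCM K ρ`: the field `K`, `[K : ℚ] = 2 dim B`, acts on `B` up to isogeny;
* `B.IsRelTwoFactor X K`: `End(B) ⊗ ℚ` is the totally real field `K`, `dim B = 2 [K : ℚ]`,
  `dim Hom(B, X) ⊗ ℚ ≤ dim B` (`B` occurs at most twice in `X`), and for every factor `C` of the
  second kind, with the field `K'`: `K` does not embed into `K'`, or `End(C) ⊗ ℚ = K'` is not
  isomorphic to `K`, or `dim Hom(B, X) ⊗ ℚ ≤ [K : ℚ]` (`B` occurs once in `X`) and
  `dim Hom(C, X) ⊗ ℚ ≤ 2 dim C`.

Suppose that `X.IsCMPairVar`: each field `K`, `[K : ℚ] = 2g`, of a factor with complex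
multiplication is abelian over `ℚ`, or `g` is a prime number, or `g = 4`, or all the
`Aut(ℂ)`-stable spaces of odd functions `Hom(K, ℂ) → ℚ` have dimension `≤ 1` or `≥ g - 1`; and for
two non-isogenous factors with complex multiplication, their fields `K`, `K'` are both abelian over
`ℚ`, or one of them is quadratic, or the odd functions on `Hom(K, ℂ)` and on `Hom(K', ℂ)` have no
isomorphic stable subspaces of dimension `> 1`, or `K` and `K'` are good (that is, of the kinds
above other than `g = 4`) with different Galois closures.

Then, for every `k`, every class `α` in `H^{2k}_{Gr}(X, ℚ(k))` is a Hodge class, that is, lies in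
`F^k`. If `X.IsCMPairVar` is not assumed, this holds for the classes `α` in `F^{k-1}`
(`X.IsInFilPred k α`).

`X.IsCMPairVar` holds for all powers of all abelian surfaces. If all simple factors are of
dimension at most two, it says that `X` does not have two non-isogenous simple factors of dimension
two with complex multiplication by non-abelian fields which have the same Galois closure. It holds
for `X = B^m`, `B` simple of CM type of dimension at most five, for all `m`.

No hypothesis on `X` other than the stated ones is made, and nothing is assumed. The new ingredient
for the surfaces without endomorphisms is a theorem on their periods: a period vector of such a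
surface is not proportional to a point of a rational curve over `ℚ̄`.
-/

namespace Pool.Agent.Results.MP_bf54cf_ag.PowersOfSurfaces

open Pool.Agent.GPC

theorem result (X : AbVar)
    (hX : ∀ B : AbVar, B.IsSimpleFactor X → B.g ≤ 2 ∨
      (∃ (K : Type) (_ : Field K) (_ : NumberField K), IsRMType B K) ∨
      (∃ (K : Type) (_ : Field K) (_ : NumberField K) (ρ : K → B.H1 → B.H1), B.HasCM K ρ) ∨
      (∃ (K : Type) (_ : Field K) (_ : NumberField K), B.IsRelTwoFactor X K))
    (k : ℕ) (α : X.Class (2 * k)) (hα : X.IsGrothendieckClass k α)
    (h : X.IsCMPairVar ∨ X.IsInFilPred k α) : X.IsInFil k α :=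
  Pool.Agent.Helper31.KTS.main X hX k α hα h.symm

end Pool.Agent.Results.MP_bf54cf_ag.PowersOfSurfaces
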