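import Pool.Agent.D5.All

/-!
Abelian varieties of dimension at most five over the algebraic numbers: Grothendieck classes are Hodge
classes, in all degrees, except for three types in dimension five; in dimension at most four they are
the sums of products of divisor classes and of Weil classes which are Hodge classes.
-/

namespace Pool.Agent.Results.MP_bf54cf_ag.UpToDimensionFive

open Pool.Agent.GPC

theorem result (X : AbVar) (hX : X.g ≤ 5) (hE : ¬ X.IsExcFive) (k : ℕ) (α : X.Class (2 * k)) :
    (X.IsGrothendieckClass k α → X.IsInFil k α) ∧
    (X.g ≤ 4 → (X.IsGrothendieckClass k α ↔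
      ∃ (m : ℕ) (w : Fin m → X.Class (2 * k)),
        (∀ r, X.IsWeil k (w r) ∧ X.IsInFil k (w r)) ∧
        X.IsDivisorialClass k (α - ∑ r, w r))) :=
  Pool.Agent.D5.All.main_five X hX hE k α

end Pool.Agent.Results.MP_bf54cf_ag.UpToDimensionFive
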